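import Pool.Agent.TH526.AE.TwoH

/-!
MP_148101_nt, Q1: zeros and poles of the `L`-functions of `H^i(X) ⊗ ρ`, `X` a smooth projective
variety over a number field and `ρ` an Artin representation, on the edge line `Re s = i/2 + 1`,
at several points of this line simultaneously.

The definitions are those of `Pool.Agent.W353.EF`, `.EH` and `.AT`, and `Pool.Agent.TH526.AE.Defs`:
* `IsFrobenius X d i v α`: the numbers `α_j` are the Frobenius eigenvalues on `H^i(X)` at `v`;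
* `IsTwistedSystem X d i N ρ τ B`: `B` is a family of Euler factors of `L(H^i(X) ⊗ ρ, s)`, correct at
  almost all primes, without a pole of a factor at `i/2 + 1 + iτ`;
* `LFun B`, `edgePoint i τ`, `size i τ B ε`: the Euler product, the point `s_τ = i/2 + 1 + iτ` and
  `log |L(s_τ + ε)| / log(1/ε)`;
* `TwistOrder X d i N ρ τ m`: there is a meromorphic continuation to a neighbourhood of `s_τ`, of
  order `m` at `s_τ`;
* `meanAbs U χ τ c Y`: the mean value of `|∑ c_k Re (χ_k(g) e^{-i τ_k y})|` over `g ∈ G / U` and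
  `0 ≤ y ≤ Y`.
-/

set_option autoImplicit false

namespace Pool.Agent.Results.MP_148101_nt.ArtinTwistsSupNorm

open NumberField IsDedekindDomain Filter Topology Polynomial
open Pool.Agent.W353.EF (IsFrobenius LFun)
open Pool.Agent.W353.EH (edgePoint size HasOrder)
open Pool.Agent.W353.AT (IsFrobeniusElement IsArtin IsTwistedSystem TwistOrder)
open Pool.Agent.TH526.AE (meanAbs)

/-- **Artin twists of `H^i(X)`: the first moment inequality at several points of the edge line.**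
Let `X` be a smooth projective variety of dimension `d` over a number field `K`, `0 ≤ i ≤ 2d`, `N` its
`i`-th Betti number, `U` an open normal subgroup of `G = Gal(K̄/K)`, `ρ_k` (`k` in a finite set)
representations of `G / U` with characters `χ_k`, `τ_k` real, `s_k = i/2 + 1 + iτ_k` and
`x_k(ε) = log |L(H^i(X) ⊗ ρ_k, s_k + ε)| / log(1/ε)`.
1. For all real `c_k` the mean values of `|∑ c_k Re (χ_k(g) e^{-i τ_k y})|` over `G / U × [0, Y]` converge
   for `Y → ∞`, to `M` say.  Nothing is assumed about continuation: `L(H^i(X) ⊗ ρ_k, s_k + ε) ≠ 0` for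
   small `ε > 0`, and for all `η > 0` and all small `ε > 0`, `|∑ c_k x_k(ε)| ≤ N M + η`.  If there are
   meromorphic continuations to neighbourhoods of the `s_k`, with the orders `m_k`, then
   `|∑ c_k m_k| ≤ N M`.
2. If the `ρ_k` are all irreducible representations of `G / U` and all `τ_k` are equal to `τ`, then for
   all `η > 0` and all small `ε > 0`, `|∑ x_k(ε) χ_k(g)| ≤ N + η` for all `g ∈ G`, and `≤ 2N/π + η` if
   `τ ≠ 0` (nothing is assumed about continuation); the same holds for the orders `m_k`, without `η`.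
3. If `ρ_0` and `ρ_1` are one-dimensional and `τ_0`, `τ_1` are linearly independent over `ℚ`, then
   `|x_0(ε)| + |x_1(ε)| ≤ 8 N / π² + η` for all `η > 0` and all small `ε > 0`, and
   `|m_0| + |m_1| ≤ 8 N / π²` for the orders of meromorphic continuations. -/
theorem result (K : Type) [Field K] [NumberField K] (l d i N : ℕ)
    (X : Set (MvPolynomial (Fin l) (𝓞 K))) (hi : i ≤ 2 * d)
    (U : Subgroup Gal(AlgebraicClosure K/K)) [U.Normal]
    (hU : IsOpen (U : Set Gal(AlgebraicClosure K/K))) (κ : Type) [Fintype κ] (n : κ → ℕ)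
    (ρ : ∀ k, Representation ℂ Gal(AlgebraicClosure K/K) (Fin (n k) → ℂ))
    (hρ : ∀ k, ∀ u ∈ U, ρ k u = 1) :
    (∀ τ : κ → ℝ,
      (∀ B : κ → HeightOneSpectrum (𝓞 K) → ℂ[X],
        (∀ k, IsTwistedSystem X d i N (ρ k) (τ k) (B k)) →
        ∀ k, ∀ᶠ ε : ℝ in 𝓝[>] 0, LFun (B k) (edgePoint i (τ k) + ε) ≠ 0) ∧
      ∀ c : κ → ℝ, ∃ M : ℝ,
        Tendsto (fun Y : ℝ => meanAbs U (fun k => (ρ k).character) τ c Y) atTop (𝓝 M) ∧
        (∀ B : κ → HeightOneSpectrum (𝓞 K) → ℂ[X],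
          (∀ k, IsTwistedSystem X d i N (ρ k) (τ k) (B k)) → ∀ η : ℝ, 0 < η →
          ∀ᶠ ε : ℝ in 𝓝[>] 0, |∑ k, c k * size i (τ k) (B k) ε| ≤ N * M + η) ∧
        ∀ m : κ → ℤ, (∀ k, TwistOrder X d i N (ρ k) (τ k) (m k)) →
          |∑ k, c k * m k| ≤ N * M) ∧
    ((∀ k, (ρ k).IsIrreducible) → (∀ k l, k ≠ l → IsEmpty ((ρ k).Equiv (ρ l))) →
      ∑ k, n k ^ 2 = Nat.card (Gal(AlgebraicClosure K/K) ⧸ U) → ∀ τ : ℝ,
      (∀ B : κ → HeightOneSpectrum (𝓞 K) → ℂ[X],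
        (∀ k, IsTwistedSystem X d i N (ρ k) τ (B k)) → ∀ η : ℝ, 0 < η →
        ∀ᶠ ε : ℝ in 𝓝[>] 0, ∀ g, ‖∑ k, (size i τ (B k) ε : ℂ) * (ρ k).character g‖ ≤
          (if τ = 0 then (N : ℝ) else 2 * N / Real.pi) + η) ∧
      ∀ m : κ → ℤ, (∀ k, TwistOrder X d i N (ρ k) τ (m k)) →
        ∀ g, ‖∑ k, (m k : ℂ) * (ρ k).character g‖ ≤
          if τ = 0 then (N : ℝ) else 2 * N / Real.pi) ∧
    (∀ (ρ' : Fin 2 → Representation ℂ Gal(AlgebraicClosure K/K) (Fin 1 → ℂ)) (τ : Fin 2 → ℝ),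
      (∀ k, ∀ u ∈ U, ρ' k u = 1) → (∀ a b : ℤ, a * τ 0 + b * τ 1 = 0 → a = 0 ∧ b = 0) →
      (∀ B : Fin 2 → HeightOneSpectrum (𝓞 K) → ℂ[X],
        (∀ k, IsTwistedSystem X d i N (ρ' k) (τ k) (B k)) → ∀ η : ℝ, 0 < η →
        ∀ᶠ ε : ℝ in 𝓝[>] 0,
          |size i (τ 0) (B 0) ε| + |size i (τ 1) (B 1) ε| ≤ 8 * N / Real.pi ^ 2 + η) ∧
      ∀ m : Fin 2 → ℤ, (∀ k, TwistOrder X d i N (ρ' k) (τ k) (m k)) →
        |(m 0 : ℝ)| + |(m 1 : ℝ)| ≤ 8 * N / Real.pi ^ 2) := by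
  have hfin : Finite (Gal(AlgebraicClosure K/K) ⧸ U) := Subgroup.quotient_finite_of_isOpen U hU
  refine ⟨fun τ => ⟨fun B hB k => ?_, fun c => ?_⟩, fun hirr hne hsum τ => ⟨fun B hB η hη => ?_,
    fun m hm g => ?_⟩, fun ρ' τ hρ' hτ => ?_⟩
  · choose σ hσ using Pool.Agent.W540.BE.exists_isFrob (F := K)
    exact (Pool.Agent.W353.AT.tw_size hi U (ρ k) (hρ k) (τ k) (B k) (hB k) σ hσ).1
  · exact Pool.Agent.TH526.AE.edgeMulti' (X := X) (N := N) hi U hU κ n ρ τ hρ c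
  · exact Pool.Agent.TH526.AE.edgeComplete hi U hU κ n ρ τ hρ B hB hirr hne hsum hη
  · exact ((Pool.Agent.W353.AT.edgeSupNorm (X := X) (N := N) hi U hU κ n ρ τ hρ).2 m hm).2
      hirr hne hsum g
  · exact Pool.Agent.TH526.AE.edgeTwo (X := X) (N := N) hi U hU ρ' τ hρ' hτ

end Pool.Agent.Results.MP_148101_nt.ArtinTwistsSupNorm
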