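import Pool.Agent.TH526.DS.CamMain

/-!
# The edge line over extensions with many conjugate elements

`X` is a smooth projective variety over a number field `K`, for example over `K = ℚ`, and `i` an
integer.  For a number field `F ⊇ K` the variety `X_F`, seen as a variety over `ℚ`, is smooth and
projective, with the motive `h^i(X_F)` over `ℚ` and the `L`-function `L(H^i(X_F), s)`, an Euler product
over the primes of `F`.  The meromorphic continuation beyond the line `Re s = i/2 + 1` is not known.

Let `F/K` be a finite Galois extension with the group `G` and `N` a normal subgroup, with the field `M`.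
The pair `(G, N)` is a Camina pair if every `g ∈ G ∖ N` is conjugate to all elements of `g N`, for example
if `G` is a Frobenius group and `N` its kernel, or if `G` is an extraspecial `p`-group and `N` its centre.
More generally, `g` runs through `G ∖ H` for a subgroup `H`, with the field `L`.  The definitions are in
`Pool.Agent.TH526.DS.CamDefs`, `Pool.Agent.TH526.DS.Defs`, `Pool.Agent.W353.AT.Defs`,
`Pool.Agent.W353.EH.Defs` and `Pool.Agent.W353.EF.Defs`.
-/

set_option autoImplicit false

namespace Pool.Agent.Results.MP_148101_nt.CaminaEdge

open NumberField

/-- **The edge line for Camina triples.**  Let `X` be a projective variety of dimension `d` over a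
number field `K`, `0 ≤ i ≤ 2d`, `N` the `i`-th Betti number and `τ` real.  Let `L`, `M`, `F` be finite
extensions of `K`, `M ⊆ F`, `M` and `F` Galois over `K`, such that every `σ ∈ Gal(F/K)` that is not the
identity on `L` is conjugate to `σ ν` for all `ν ∈ Gal(F/M)`; and let `[L : K] > N²`, or only
`[L : K] > (2N/π)²` if `τ ≠ 0`.
* Let `χ` be an irreducible representation of `Gal(F/K)` that is not trivial on `Gal(F/M)`.  Then
  (no continuation is assumed) `|log |L(H^i(X) ⊗ χ, i/2 + 1 + iτ + ε)| / log(1/ε)|` is at most
  `N / √[L : K] + η` for every `η > 0` and all small `ε > 0` (`2N / (π √[L : K]) + η` if `τ ≠ 0`).  If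
  there is a meromorphic continuation to a neighbourhood of `i/2 + 1 + iτ`, then it has neither a zero nor
  a pole at this point.
* If there is one for all these `χ`, then the values of `log |L(i/2 + 1 + iτ + ε)| / log(1/ε)` for
  `L(H^i(X_F), s)` and `L(H^i(X_M), s)` differ by a null function, and the orders of these functions at
  `i/2 + 1 + iτ`, if they exist, are equal. -/
theorem result (K : Type) [Field K] [NumberField K] (n d i N : ℕ)
    (X : Set (MvPolynomial (Fin n) (𝓞 K))) (hi : i ≤ 2 * d) :
    Pool.Agent.TH526.DS.CaminaOrders X d i N :=
  Pool.Agent.TH526.DS.caminaOrders hi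

end Pool.Agent.Results.MP_148101_nt.CaminaEdge
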