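import Pool.Agent.TH820.LG.TowerMain

/-!
# The edge line over towers of extensions with large linear and alternating groups

`X` is a smooth projective variety over a number field `K`, for example over `K = ℚ`, and `i` an
integer.  For a number field `E ⊇ K` the variety `X_E`, seen as a variety over `ℚ`, is smooth and
projective, with the motive `h^i(X_E)` over `ℚ` and the `L`-function `L(H^i(X_E), s)`, an Euler product
over the primes of `E`.  The meromorphic continuation beyond the line `Re s = i/2 + 1` is not known.

Let `M = T_0 ⊆ T_1 ⊆ … ⊆ T_r = F` be finite Galois extensions of `K` such that each group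
`Gal(T_{j+1}/T_j)` is a quotient of `SL_m(k)`, for a finite field `k`, on which `Gal(T_{j+1}/K)` acts through
`GL_m(k)`, or a quotient of the alternating group `A_m` on which `Gal(T_{j+1}/K)` acts through the symmetric
group `S_m`.  The numbers `m`, which may depend on `j`, have to be large; the fields `k`, the number `r`
and the group `Gal(M/K)` are arbitrary.  For example `Gal(F/K)` is `SL_m(k)`, `GL_m(k)`, `PGL_m(k)`, `A_m`,
`S_m` or a product of groups of these kinds and an arbitrary group.  The definitions are in
`Pool.Agent.TH820.LG.TowerDefs`, `Pool.Agent.TH820.LG.Defs`, `Pool.Agent.TH526.DS.CamDefs`,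
`Pool.Agent.W353.AT.Defs`, `Pool.Agent.W353.EH.Defs` and `Pool.Agent.W353.EF.Defs`.
-/

set_option autoImplicit false

namespace Pool.Agent.Results.MP_148101_nt.LinearGroups

open NumberField

/-- **The edge line over towers of extensions with large linear and alternating groups.**  For every
`N` there is a number `n₀` with the following property.  Let `X` be a projective variety of dimension `d`
over a number field `K`, `0 ≤ i ≤ 2d`, `N` the `i`-th Betti number and `τ` real.  Let
`M = T_0 ⊆ T_1 ⊆ … ⊆ T_r = F` be finite Galois extensions of `K` such that each `Gal(T_{j+1}/T_j)` is, for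
some `m ≥ n₀`, a quotient of `SL_m(k)`, `k` a finite field, on which `Gal(T_{j+1}/K)` acts through
`GL_m(k)`, or a quotient of `A_m` on which it acts through `S_m`.  Suppose that `L(H^i(X) ⊗ χ, s)` has a
meromorphic continuation to a neighbourhood of the one point `i/2 + 1 + iτ` for all irreducible
representations `χ` of `Gal(F/K)` that are not trivial on `Gal(F/M)`.
* All these functions have neither a zero nor a pole at `i/2 + 1 + iτ`.
* Let `E` be any field with `K ⊆ E ⊆ F`.  The values of `log |L(i/2 + 1 + iτ + ε)| / log(1/ε)` for
  `L(H^i(X_E), s)` and `L(H^i(X_{E ∩ M}), s)` differ by a null function, and the orders of these functions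
  at `i/2 + 1 + iτ`, if they exist, are equal. -/
theorem result (N : ℕ) : ∃ n₀ : ℕ, ∀ (K : Type) [Field K] [NumberField K] (l d i : ℕ)
    (X : Set (MvPolynomial (Fin l) (𝓞 K))), i ≤ 2 * d →
    Pool.Agent.TH820.LG.TowerOrders X d i N n₀ :=
  Pool.Agent.TH820.LG.towerOrders N

end Pool.Agent.Results.MP_148101_nt.LinearGroups
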