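import Pool.Agent.W353.EH.Main

/-!
# Poles and zeros on the edge line over all subfields of a field with symmetric Galois group

`X` is a smooth projective variety over a number field `K`, for example over `K = ℚ`, and `i` an
integer.  For every number field `M ⊇ K` the variety `X_M`, seen as a variety over `ℚ`, is smooth and
projective, and `L(H^i(X_M), s)` is the `L`-function of the Chow motive of this variety.  The theorem is
about the poles and zeros on the line `Re s = i/2 + 1`, the boundary of the half plane of absolute
convergence, for fixed `X` and varying `M`.  Nothing is assumed about the automorphy of `H^i(X)`.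
The definitions are in `Pool.Agent.W353.EH.Defs` and `Pool.Agent.W353.EF.Defs`.
-/

set_option autoImplicit false

namespace Pool.Agent.Results.MP_148101_nt.SymmetricEdge

open NumberField

/-- **The edge line over the subfields of a field with symmetric Galois group.**  For every `N` there is
a number `n₀` with the following property.  Let `X` be a projective variety of dimension `d` over a
number field `K` (for instance `K = ℚ`), `0 ≤ i ≤ 2d`, `N` the `i`-th Betti number, `τ` any real number and
`s_τ = i/2 + 1 + iτ`.  Let `F/K` be an extension of degree at least `n₀` with symmetric Galois group, `L`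
its closure and `Q = K(√disc F)`.  Suppose that the `L`-functions `L(H^i(X_M), s)` over all Young
subfields `M` of `L` have meromorphic continuations to a neighbourhood of the one point `s_τ`, and let
`m r` be their orders there, so `m ⊥` is the order over `L` and `m ⊤` the order over `K`.

Let `M` be any field between `K` and `L`, and `k = m ⊥` if `Q ⊆ M`, `k = m ⊤` otherwise.  Then
`L(H^i(X_M), s_τ + ε) ≠ 0` for small `ε > 0`, `log |L(H^i(X_M), s_τ + ε)| / log(1/ε) → -k` as `ε → 0+`, and
`k` is the order of every meromorphic continuation of `L(H^i(X_M), s)` to a neighbourhood of `s_τ`: if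
the `L`-function has no pole at `s_τ` over `K` and over `L`, then over no field between them.  Moreover
`|m ⊤| + |m ⊥ - m ⊤| ≤ N`, and even `≤ 2N/π` if `τ ≠ 0`. -/
theorem result (N : ℕ) : ∃ n₀ : ℕ, ∀ (K : Type) [Field K] [NumberField K] (n d i : ℕ)
    (X : Set (MvPolynomial (Fin n) (𝓞 K))), i ≤ 2 * d →
    Pool.Agent.W353.EH.SymmetricEdge X d i N n₀ := by
  obtain ⟨n₀, h⟩ := Pool.Agent.W353.EH.all N
  exact ⟨n₀, fun K _ _ n d i X hi => (h K n d i X hi).2⟩

end Pool.Agent.Results.MP_148101_nt.SymmetricEdge
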